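import Pool.Agent.Helper59.Wav.Defs

/-!
# Module G+H of MP_d629b1_an: marginals and Hoelder continuity of the Fourier transform
-/

open MeasureTheory Filter
open scoped FourierTransform RealInnerProductSpace Matrix ENNReal ComplexConjugate

noncomputable section

namespace Wav

theorem ee_norm (x : ℝ) : ‖ee x‖ = 1 := by
  unfold ee
  have : 2 * (Real.pi : ℂ) * Complex.I * x = ((2 * Real.pi * x : ℝ) : ℂ) * Complex.I := by
    push_cast
    ring
  rw [this]
  exact Complex.norm_exp_ofReal_mul_I _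

theorem ee_conj (x : ℝ) : conj (ee x) = ee (-x) := by
  unfold ee
  rw [← Complex.exp_conj]
  congr 1
  simp only [map_mul, Complex.conj_I, Complex.conj_ofReal, map_ofNat]
  push_cast
  ring

theorem ee_cont : Continuous ee := by
  unfold ee
  fun_prop

/-- the real case -/
theorem marginal_real {n : ℕ} (v : E n) (g : E n → ℝ) (hg : Integrable g)
    (h : ∀ s : ℝ, ∫ ξ, (g ξ : ℂ) * ee (s * ⟪v, ξ⟫) = 0) (R : ℝ) :
    ∫ ξ in {ξ : E n | R ≤ ⟪v, ξ⟫}, g ξ = 0 := by
  set T : E n → ℝ := fun ξ => ⟪v, ξ⟫ with hT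
  have hTm : Measurable T := (Continuous.inner continuous_const continuous_id).measurable
  set fp : E n → ℝ≥0∞ := fun ξ => ENNReal.ofReal (g ξ) with hfp
  set fm : E n → ℝ≥0∞ := fun ξ => ENNReal.ofReal (-g ξ) with hfm
  have mp : AEMeasurable fp := hg.aemeasurable.ennreal_ofReal
  have mm : AEMeasurable fm := hg.aemeasurable.neg.ennreal_ofReal
  have finp : ∫⁻ ξ, fp ξ ≠ ⊤ := by
    have := hg.lintegral_lt_top
    exact this.ne
  have finm : ∫⁻ ξ, fm ξ ≠ ⊤ := by
    have := hg.neg.lintegral_lt_top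
    exact this.ne
  set μp : Measure ℝ := (volume.withDensity fp).map T with hμp
  set μm : Measure ℝ := (volume.withDensity fm).map T with hμm
  have fp1 : IsFiniteMeasure (volume.withDensity fp) := isFiniteMeasure_withDensity finp
  have fm1 : IsFiniteMeasure (volume.withDensity fm) := isFiniteMeasure_withDensity finm
  have hfin1 : IsFiniteMeasure μp := by
    rw [hμp]
    infer_instance
  have hfin2 : IsFiniteMeasure μm := by
    rw [hμm]
    infer_instance
  have hint : ∀ s : ℝ, Integrable (fun ξ => ee (s * T ξ)) (volume.withDensity fp) ∧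
      Integrable (fun ξ => ee (s * T ξ)) (volume.withDensity fm) := by
    intro s
    have hm : Measurable (fun ξ => ee (s * T ξ)) := ee_cont.measurable.comp (hTm.const_mul s)
    constructor
    · exact Integrable.of_bound hm.aestronglyMeasurable 1
        (Eventually.of_forall fun ξ => (ee_norm _).le)
    · exact Integrable.of_bound hm.aestronglyMeasurable 1
        (Eventually.of_forall fun ξ => (ee_norm _).le)
  have key : ∀ s : ℝ, ∫ ξ, ee (s * T ξ) ∂(volume.withDensity fp) =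
      ∫ ξ, ee (s * T ξ) ∂(volume.withDensity fm) := by
    intro s
    have e1 := integral_withDensity_eq_integral_toReal_smul₀ mp
      (Eventually.of_forall fun ξ => ENNReal.ofReal_lt_top) (fun ξ => ee (s * T ξ))
    have e2 := integral_withDensity_eq_integral_toReal_smul₀ mm
      (Eventually.of_forall fun ξ => ENNReal.ofReal_lt_top) (fun ξ => ee (s * T ξ))
    rw [e1, e2, ← sub_eq_zero]
    have i1 : Integrable (fun ξ => (fp ξ).toReal • ee (s * T ξ)) := by
      have hb : Integrable (fun ξ => (fp ξ).toReal) := by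
        refine hg.norm.mono' mp.ennreal_toReal.aestronglyMeasurable
          (Eventually.of_forall fun ξ => ?_)
        rw [hfp, Real.norm_of_nonneg ENNReal.toReal_nonneg, ENNReal.toReal_ofReal']
        exact max_le (le_abs_self _) (abs_nonneg _)
      refine hb.norm.mono' ?_ (Eventually.of_forall fun ξ => ?_)
      · exact hb.aestronglyMeasurable.smul
          (ee_cont.measurable.comp (hTm.const_mul s)).aestronglyMeasurable
      · rw [norm_smul, ee_norm, mul_one]
    have i2 : Integrable (fun ξ => (fm ξ).toReal • ee (s * T ξ)) := by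
      have hb : Integrable (fun ξ => (fm ξ).toReal) := by
        refine hg.norm.mono' mm.ennreal_toReal.aestronglyMeasurable
          (Eventually.of_forall fun ξ => ?_)
        rw [hfm, Real.norm_of_nonneg ENNReal.toReal_nonneg, ENNReal.toReal_ofReal']
        exact max_le (neg_le_abs _) (abs_nonneg _)
      refine hb.norm.mono' ?_ (Eventually.of_forall fun ξ => ?_)
      · exact hb.aestronglyMeasurable.smul
          (ee_cont.measurable.comp (hTm.const_mul s)).aestronglyMeasurable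
      · rw [norm_smul, ee_norm, mul_one]
    rw [← integral_sub i1 i2, ← h s]
    refine integral_congr_ae (Eventually.of_forall fun ξ => ?_)
    show (fp ξ).toReal • ee (s * T ξ) - (fm ξ).toReal • ee (s * T ξ) = (g ξ : ℂ) * ee (s * T ξ)
    rw [← sub_smul, Complex.real_smul]
    congr 2
    rw [hfp, hfm]
    simp only [ENNReal.toReal_ofReal']
    rcases le_total 0 (g ξ) with h0 | h0
    · rw [max_eq_left h0, max_eq_right (by linarith)]
      ring
    · rw [max_eq_right h0, max_eq_left (by linarith)]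
      ring
  have hμ : μp = μm := by
    refine Measure.ext_of_charFun ?_
    funext t
    rw [charFun_apply_real, charFun_apply_real, hμp, hμm,
      integral_map hTm.aemeasurable (by fun_prop), integral_map hTm.aemeasurable (by fun_prop)]
    have e : ∀ ξ, Complex.exp (t * (T ξ : ℝ) * Complex.I) = ee (t / (2 * Real.pi) * T ξ) := by
      intro ξ
      unfold ee
      congr 1
      have hpi : (Real.pi : ℂ) ≠ 0 := by exact_mod_cast Real.pi_ne_zero
      push_cast
      field_simp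
    simp_rw [e]
    exact key _
  -- evaluate on the half-line
  set S : Set (E n) := {ξ : E n | R ≤ ⟪v, ξ⟫} with hS
  have hSm : MeasurableSet S := measurableSet_le measurable_const hTm
  have e1 : μp (Set.Ici R) = ∫⁻ ξ in S, fp ξ := by
    rw [hμp, Measure.map_apply hTm measurableSet_Ici]
    exact withDensity_apply _ hSm
  have e2 : μm (Set.Ici R) = ∫⁻ ξ in S, fm ξ := by
    rw [hμm, Measure.map_apply hTm measurableSet_Ici]
    exact withDensity_apply _ hSm
  rw [integral_eq_lintegral_pos_part_sub_lintegral_neg_part hg.integrableOn]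
  show (∫⁻ ξ in S, fp ξ).toReal - (∫⁻ ξ in S, fm ξ).toReal = 0
  rw [← e1, ← e2, hμ, sub_self]

/-- Module G. One-dimensional marginals are determined by their Fourier transform. -/
theorem marginal_zero {n : ℕ} (v : E n) (b : E n → ℂ) (hb : Integrable b)
    (h : ∀ s : ℝ, ∫ ξ, b ξ * ee (s * ⟪v, ξ⟫) = 0) (R : ℝ) :
    ∫ ξ in {ξ : E n | R ≤ ⟪v, ξ⟫}, b ξ = 0 := by
  have hTc : Continuous (fun ξ : E n => ⟪v, ξ⟫) := Continuous.inner continuous_const continuous_id
  have hi : ∀ s : ℝ, Integrable (fun ξ => b ξ * ee (s * ⟪v, ξ⟫)) := by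
    intro s
    refine hb.norm.mono' (hb.aestronglyMeasurable.mul
      (ee_cont.comp (continuous_const.mul hTc)).aestronglyMeasurable)
      (Eventually.of_forall fun ξ => ?_)
    rw [norm_mul, ee_norm, mul_one]
  have hi' : ∀ s : ℝ, Integrable (fun ξ => conj (b ξ) * ee (s * ⟪v, ξ⟫)) := by
    intro s
    refine hb.norm.mono' ((Complex.continuous_conj.comp_aestronglyMeasurable
      hb.aestronglyMeasurable).mul
      (ee_cont.comp (continuous_const.mul hTc)).aestronglyMeasurable)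
      (Eventually.of_forall fun ξ => ?_)
    rw [norm_mul, ee_norm, mul_one]
    exact (RCLike.norm_conj _).le
  have hconj : ∀ s : ℝ, ∫ ξ, conj (b ξ) * ee (s * ⟪v, ξ⟫) = 0 := by
    intro s
    have h1 : ∫ ξ, conj (b ξ * ee (-s * ⟪v, ξ⟫)) = conj (∫ ξ, b ξ * ee (-s * ⟪v, ξ⟫)) :=
      integral_conj
    rw [h (-s), map_zero] at h1
    rw [← h1]
    refine integral_congr_ae (Eventually.of_forall fun ξ => ?_)
    show conj (b ξ) * ee (s * ⟪v, ξ⟫) = conj (b ξ * ee (-s * ⟪v, ξ⟫))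
    rw [map_mul, ee_conj]
    congr 2
    ring
  have hre := marginal_real v (fun ξ => (b ξ).re) hb.re (fun s => by
    have e : (fun ξ => (((b ξ).re : ℝ) : ℂ) * ee (s * ⟪v, ξ⟫)) = fun ξ =>
        (1 / 2 : ℂ) * (b ξ * ee (s * ⟪v, ξ⟫) + conj (b ξ) * ee (s * ⟪v, ξ⟫)) := by
      funext ξ
      rw [Complex.re_eq_add_conj]
      ring
    rw [e, integral_const_mul, integral_add (hi s) (hi' s), h s, hconj s]
    simp) R
  have him := marginal_real v (fun ξ => (b ξ).im) hb.im (fun s => by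
    have e : (fun ξ => (((b ξ).im : ℝ) : ℂ) * ee (s * ⟪v, ξ⟫)) = fun ξ =>
        (1 / (2 * Complex.I) : ℂ) * (b ξ * ee (s * ⟪v, ξ⟫) - conj (b ξ) * ee (s * ⟪v, ξ⟫)) := by
      funext ξ
      rw [Complex.im_eq_sub_conj]
      ring
    rw [e, integral_const_mul, integral_sub (hi s) (hi' s), h s, hconj s]
    simp) R
  have h1 := integral_re (𝕜 := ℂ) (f := b) (hb.integrableOn (s := {ξ : E n | R ≤ ⟪v, ξ⟫}))
  have h2 := integral_im (𝕜 := ℂ) (f := b) (hb.integrableOn (s := {ξ : E n | R ≤ ⟪v, ξ⟫}))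
  apply Complex.ext
  · exact (h1.symm.trans hre)
  · exact (h2.symm.trans him)

/-! ### Hoelder continuity -/

theorem char_sub_le (a b : ℝ) :
    ‖((Real.fourierChar a : Circle) : ℂ) - ((Real.fourierChar b : Circle) : ℂ)‖ ≤
      2 * Real.pi * |a - b| := by
  have e : ((Real.fourierChar a : Circle) : ℂ) - ((Real.fourierChar b : Circle) : ℂ) =
      ((Real.fourierChar b : Circle) : ℂ) *
        (Complex.exp (Complex.I * ((2 * Real.pi * (a - b) : ℝ) : ℂ)) - 1) := by
    rw [Real.fourierChar_apply, Real.fourierChar_apply, mul_sub, ← Complex.exp_add, mul_one]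
    congr 2
    push_cast
    ring
  rw [e, norm_mul, Circle.norm_coe, one_mul]
  refine Real.norm_exp_I_mul_ofReal_sub_one_le.trans ?_
  rw [Real.norm_eq_abs, abs_mul, abs_of_pos Real.two_pi_pos]

theorem min_two_le {y α : ℝ} (hy : 0 ≤ y) (hα0 : 0 < α) (hα1 : α ≤ 1) :
    min 2 y ≤ 2 * y ^ α := by
  rcases le_total y 1 with h | h
  · have h1 : y ≤ y ^ α := by
      rcases hy.eq_or_lt with h0 | h0
      · rw [← h0, Real.zero_rpow hα0.ne']
      · calc y = y ^ (1 : ℝ) := (Real.rpow_one y).symm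
          _ ≤ y ^ α := Real.rpow_le_rpow_of_exponent_ge h0 h hα1
    have h2 : 0 ≤ y ^ α := Real.rpow_nonneg hy α
    exact (min_le_right _ _).trans (by linarith)
  · have h1 : 1 ≤ y ^ α := Real.one_le_rpow h hα0.le
    exact (min_le_left _ _).trans (by linarith)

theorem moment_integrable {n : ℕ} (ψ : E n → ℂ) (hψ : Integrable ψ) {N : ℝ}
    (hd : ∃ C R : ℝ, ∀ᵐ x : E n, R ≤ ‖x‖ → ‖ψ x‖ ≤ C * ‖x‖ ^ (-N)) {α : ℝ} (hα0 : 0 < α)
    (hαN : (n : ℝ) < N - α) : Integrable (fun x => ‖x‖ ^ α * ‖ψ x‖) := by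
  obtain ⟨C, R, hCR⟩ := hd
  set R' : ℝ := max R 1 with hR'
  set C' : ℝ := max C 0 with hC'
  have hN0 : 0 ≤ N - α := (Nat.cast_nonneg n).trans hαN.le
  have h1 : Integrable (fun x : E n => (1 + ‖x‖) ^ (-(N - α))) :=
    integrable_one_add_norm (by simpa using hαN)
  have h2 : Integrable (fun x : E n => R' ^ α * ‖ψ x‖ +
      C' * 2 ^ (N - α) * (1 + ‖x‖) ^ (-(N - α))) :=
    (hψ.norm.const_mul _).add (h1.const_mul _)
  refine h2.mono' ?_ ?_
  · refine AEStronglyMeasurable.mul ?_ hψ.norm.aestronglyMeasurable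
    exact (Continuous.rpow_const continuous_norm fun x => Or.inr hα0.le).aestronglyMeasurable
  · filter_upwards [hCR] with x hx
    have hR1 : 1 ≤ R' := le_max_right _ _
    have hp0 : 0 ≤ ‖x‖ ^ α * ‖ψ x‖ := by positivity
    rw [Real.norm_of_nonneg hp0]
    have hb : 0 ≤ C' * 2 ^ (N - α) * (1 + ‖x‖) ^ (-(N - α)) := by positivity
    have ha : 0 ≤ R' ^ α * ‖ψ x‖ := by positivity
    rcases le_total ‖x‖ R' with hxR | hxR
    · have h3 : ‖x‖ ^ α ≤ R' ^ α := Real.rpow_le_rpow (norm_nonneg _) hxR hα0.le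
      have h4 := mul_le_mul_of_nonneg_right h3 (norm_nonneg (ψ x))
      linarith
    · have hx1 : 1 ≤ ‖x‖ := hR1.trans hxR
      have hx0 : 0 < ‖x‖ := by linarith
      have h3 := hx ((le_max_left _ _).trans hxR)
      have h4 : ‖ψ x‖ ≤ C' * ‖x‖ ^ (-N) :=
        h3.trans (mul_le_mul_of_nonneg_right (le_max_left _ _) (by positivity))
      have h5 : ‖x‖ ^ α * ‖ψ x‖ ≤ C' * ‖x‖ ^ (-(N - α)) := by
        calc ‖x‖ ^ α * ‖ψ x‖ ≤ ‖x‖ ^ α * (C' * ‖x‖ ^ (-N)) :=
              mul_le_mul_of_nonneg_left h4 (by positivity)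
          _ = C' * (‖x‖ ^ α * ‖x‖ ^ (-N)) := by ring
          _ = C' * ‖x‖ ^ (-(N - α)) := by
              rw [← Real.rpow_add hx0]
              congr 2
              ring
      have h6 : ‖x‖ ^ (-(N - α)) ≤ 2 ^ (N - α) * (1 + ‖x‖) ^ (-(N - α)) := by
        have h7 : (1 + ‖x‖) / 2 ≤ ‖x‖ := by linarith
        have h8 : ‖x‖ ^ (-(N - α)) ≤ ((1 + ‖x‖) / 2) ^ (-(N - α)) :=
          Real.rpow_le_rpow_of_nonpos (by positivity) h7 (by linarith)
        refine h8.trans (le_of_eq ?_)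
        rw [Real.div_rpow (by positivity) (by norm_num), Real.rpow_neg (by norm_num : (0:ℝ) ≤ 2),
          div_inv_eq_mul, mul_comm]
      have h9 : C' * ‖x‖ ^ (-(N - α)) ≤ C' * (2 ^ (N - α) * (1 + ‖x‖) ^ (-(N - α))) :=
        mul_le_mul_of_nonneg_left h6 (le_max_right _ _)
      linarith

/-- Module H. Hoelder continuity of the Fourier transform. -/
theorem fourier_holder {n : ℕ} (ψ : E n → ℂ) (hψ : Integrable ψ) {N : ℝ} (hN : (n : ℝ) < N)
    (hd : ∃ C R : ℝ, ∀ᵐ x : E n, R ≤ ‖x‖ → ‖ψ x‖ ≤ C * ‖x‖ ^ (-N)) :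
    ∃ C α : ℝ, 0 < α ∧ α ≤ 1 ∧ ∀ ξ ξ' : E n, ‖𝓕 ψ ξ - 𝓕 ψ ξ'‖ ≤ C * ‖ξ - ξ'‖ ^ α := by
  set α : ℝ := min 1 ((N - n) / 2) with hα
  have hα0 : 0 < α := lt_min one_pos (by linarith)
  have hα1 : α ≤ 1 := min_le_left _ _
  have hαN : (n : ℝ) < N - α := by
    have : α ≤ (N - n) / 2 := min_le_right _ _
    linarith
  have hm := moment_integrable ψ hψ hd hα0 hαN
  refine ⟨2 * (2 * Real.pi) ^ α * ∫ x, ‖x‖ ^ α * ‖ψ x‖, α, hα0, hα1, ?_⟩
  intro ξ ξ'
  have hint : ∀ ξ : E n, Integrable (fun v => Real.fourierChar (-⟪v, ξ⟫) • ψ v) := by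
    intro ξ
    exact (Real.fourierIntegral_convergent_iff ξ).2 hψ
  rw [Real.fourier_eq, Real.fourier_eq, ← integral_sub (hint ξ) (hint ξ')]
  have hbd : ∀ v : E n, ‖Real.fourierChar (-⟪v, ξ⟫) • ψ v - Real.fourierChar (-⟪v, ξ'⟫) • ψ v‖ ≤
      2 * (2 * Real.pi) ^ α * ‖ξ - ξ'‖ ^ α * (‖v‖ ^ α * ‖ψ v‖) := by
    intro v
    have e : Real.fourierChar (-⟪v, ξ⟫) • ψ v - Real.fourierChar (-⟪v, ξ'⟫) • ψ v =
        (((Real.fourierChar (-⟪v, ξ⟫) : Circle) : ℂ) -
          ((Real.fourierChar (-⟪v, ξ'⟫) : Circle) : ℂ)) * ψ v := by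
      rw [sub_mul]
      rfl
    rw [e, norm_mul]
    have h1 := char_sub_le (-⟪v, ξ⟫) (-⟪v, ξ'⟫)
    have h2 : |-⟪v, ξ⟫ - -⟪v, ξ'⟫| ≤ ‖v‖ * ‖ξ - ξ'‖ := by
      have : -⟪v, ξ⟫ - -⟪v, ξ'⟫ = -⟪v, ξ - ξ'⟫ := by
        rw [inner_sub_right]
        ring
      rw [this, abs_neg]
      exact abs_real_inner_le_norm _ _
    have h3 : ‖((Real.fourierChar (-⟪v, ξ⟫) : Circle) : ℂ) -
        ((Real.fourierChar (-⟪v, ξ'⟫) : Circle) : ℂ)‖ ≤ 2 := by
      refine (norm_sub_le _ _).trans ?_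
      rw [Circle.norm_coe, Circle.norm_coe]
      norm_num
    have h4 : ‖((Real.fourierChar (-⟪v, ξ⟫) : Circle) : ℂ) -
        ((Real.fourierChar (-⟪v, ξ'⟫) : Circle) : ℂ)‖ ≤
        min 2 (2 * Real.pi * (‖v‖ * ‖ξ - ξ'‖)) := by
      refine le_min h3 (h1.trans ?_)
      exact mul_le_mul_of_nonneg_left h2 Real.two_pi_pos.le
    have h5 := min_two_le (y := 2 * Real.pi * (‖v‖ * ‖ξ - ξ'‖)) (by
      have := Real.two_pi_pos
      positivity) hα0 hα1
    have h6 : (2 * Real.pi * (‖v‖ * ‖ξ - ξ'‖)) ^ α =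
        (2 * Real.pi) ^ α * (‖v‖ ^ α * ‖ξ - ξ'‖ ^ α) := by
      rw [Real.mul_rpow Real.two_pi_pos.le (by positivity),
        Real.mul_rpow (norm_nonneg _) (norm_nonneg _)]
    rw [h6] at h5
    have h7 := mul_le_mul_of_nonneg_right (h4.trans h5) (norm_nonneg (ψ v))
    linarith
  refine (norm_integral_le_integral_norm _).trans ?_
  have h8 : ∫ v, ‖Real.fourierChar (-⟪v, ξ⟫) • ψ v - Real.fourierChar (-⟪v, ξ'⟫) • ψ v‖ ≤
      ∫ v, 2 * (2 * Real.pi) ^ α * ‖ξ - ξ'‖ ^ α * (‖v‖ ^ α * ‖ψ v‖) :=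
    integral_mono ((hint ξ).sub (hint ξ')).norm (hm.const_mul _) hbd
  refine h8.trans (le_of_eq ?_)
  rw [integral_const_mul]
  ring

end Wav
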